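import Pool.Agent.Q80.AC.Stm

/-!
# Project AC, job TRR: continuity of right translations in `L¹`
-/

set_option autoImplicit false

open MeasureTheory Topology Filter
open scoped ENNReal NNReal ComplexConjugate

noncomputable section

namespace Q184.AC.TRR

open Pool.Agent.Q80.AC

theorem map_inv_mconv {H : Type} [Group H] [MeasurableSpace H] [MeasurableMul₂ H]
    [MeasurableInv H] (ρ ν : Measure H) [IsFiniteMeasure ρ] [IsFiniteMeasure ν] :
    (ρ.map (fun x => x⁻¹)) ∗ₘ (ν.map (fun x => x⁻¹)) = (ν ∗ₘ ρ).map (fun x => x⁻¹) := by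
  have hinv : Measurable (fun x : H => x⁻¹) := measurable_inv
  have hmul : Measurable (fun p : H × H => p.1 * p.2) := measurable_fst.mul measurable_snd
  change Measure.map (fun p : H × H => p.1 * p.2)
      ((ρ.map (fun x => x⁻¹)).prod (ν.map (fun x => x⁻¹))) =
    Measure.map (fun x => x⁻¹) (Measure.map (fun p : H × H => p.1 * p.2) (ν.prod ρ))
  have hsw : ν.prod ρ = Measure.map Prod.swap (ρ.prod ν) := Measure.prod_swap.symm
  rw [Measure.map_prod_map _ _ hinv hinv, Measure.map_map hmul (hinv.prodMap hinv),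
    Measure.map_map hinv hmul, hsw, Measure.map_map (hinv.comp hmul) measurable_swap]
  congr 1
  funext p
  simp

theorem t_TRR (h1 : S_TRL) : S_TRR := by
  intro H _ _ _ _ _ _ _ _ m _ ν _ hν e he
  have hinv : Measurable (fun x : H => x⁻¹) := measurable_inv
  have hac : ν.map (fun x => x⁻¹) ≪ m :=
    (hν.map hinv).trans (quasiMeasurePreserving_inv m).absolutelyContinuous
  have : IsFiniteMeasure (ν.map (fun x => x⁻¹)) := Measure.isFiniteMeasure_map ν _
  obtain ⟨V, hV, h2⟩ := h1 H m (ν.map (fun x => x⁻¹)) hac e he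
  refine ⟨(fun x : H => x⁻¹) ⁻¹' V, ?_, fun ρ hρ hρV => ?_⟩
  · have h3 : Tendsto (fun x : H => x⁻¹) (𝓝 1) (𝓝 1) := by
      have := (continuous_inv (G := H)).tendsto 1
      rwa [inv_one] at this
    exact h3 hV
  · have := hρ
    have : IsProbabilityMeasure (ρ.map (fun x => x⁻¹)) :=
      Measure.isProbabilityMeasure_map hinv.aemeasurable
    have h4 : (ρ.map (fun x => x⁻¹)) Vᶜ = 0 := by
      have h5 : (ρ.map (MeasurableEquiv.inv H)) Vᶜ = ρ ((MeasurableEquiv.inv H) ⁻¹' Vᶜ) :=
        MeasurableEquiv.map_apply _ _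
      exact h5.trans hρV
    have h6 := h2 (ρ.map (fun x => x⁻¹)) inferInstance h4
    rw [map_inv_mconv] at h6
    intro f hf hf1
    have hf' : Measurable (fun x : H => f x⁻¹) := hf.comp hinv
    have h7 := h6 (fun x => f x⁻¹) hf' (fun x => hf1 _)
    rw [integral_map hinv.aemeasurable hf'.aestronglyMeasurable,
      integral_map hinv.aemeasurable hf'.aestronglyMeasurable] at h7
    simpa only [inv_inv] using h7

end Q184.AC.TRR
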